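import Mathlib

/-!
# MP_50ef00_gt: the combinatorial model

Finite abstract simplicial complexes with vertices in `ℕ`, elementary collapses, simple-homotopy
equivalence, the complexes `Kk k` (triangulated presentation complexes).
-/

namespace Pool.Agent.Lib.MP_50ef00_gt

/-- finite abstract simplicial complex: a finite set of nonempty finite sets of vertices, closed
under passing to nonempty subsets -/
def IsComplex (K : Finset (Finset ℕ)) : Prop :=
  ∀ s ∈ K, s.Nonempty ∧ ∀ t : Finset ℕ, t ⊆ s → t.Nonempty → t ∈ K

/-- `L` is obtained from `K` by an elementary collapse: a simplex `t` and a facet `s` of `t`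
contained in no simplex of `K` besides `s` and `t` are removed. -/
def Collapse (K L : Finset (Finset ℕ)) : Prop :=
  ∃ s t : Finset ℕ, s ∈ K ∧ t ∈ K ∧ s ⊆ t ∧ t.card = s.card + 1 ∧
    (∀ u ∈ K, s ⊆ u → u = s ∨ u = t) ∧ L = (K.erase s).erase t

/-- `L` is obtained from `K` by renaming the vertices -/
def Relabel (K L : Finset (Finset ℕ)) : Prop :=
  ∃ f : Equiv.Perm ℕ, L = K.image (Finset.image f)

/-- one step of a formal deformation between finite simplicial complexes (of any dimension) -/
def SimpleStep (K L : Finset (Finset ℕ)) : Prop :=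
  IsComplex K ∧ IsComplex L ∧ (Collapse K L ∨ Relabel K L)

/-- simple-homotopy equivalence: a finite sequence of elementary collapses, their inverses
(expansions) and renamings, through finite simplicial complexes of any dimension -/
def SimpleEquiv : Finset (Finset ℕ) → Finset (Finset ℕ) → Prop := Relation.EqvGen SimpleStep

/-! ### Words and triangulated presentation complexes -/

/-- words in four generators `t = 0`, `x = 1`, `y = 2`, `w = 3` and their inverses
(`(g, true)` is `g`, `(g, false)` is `g⁻¹`) -/
abbrev Word := List (Fin 4 × Bool)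

/-- the value of a word in a group -/
def wval {G : Type*} [Group G] (γ : Fin 4 → G) (w : Word) : G :=
  (w.map (fun l => if l.2 then γ l.1 else (γ l.1)⁻¹)).prod

/-- `R1 = y x y⁻¹ x` -/
def R1 : Word := [(2, true), (1, true), (2, false), (1, true)]

/-- `R2 = y² t y⁻² t⁻⁶` -/
def R2 : Word :=
  [(2, true), (2, true), (0, true), (2, false), (2, false)] ++ List.replicate 6 (0, false)

/-- `R3 = (x t x⁻¹) t (x t x⁻¹)⁻¹ t⁻⁶` -/
def R3 : Word :=
  [(1, true), (0, true), (1, false), (0, true), (1, true), (0, false), (1, false)]
    ++ List.replicate 6 (0, false)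

/-- `v₀ = w t w⁻¹ t⁻¹`, `v_{i+1} = v_i t v_i t⁻¹` -/
def vk : ℕ → Word
  | 0 => [(3, true), (0, true), (3, false), (0, false)]
  | k + 1 => vk k ++ [(0, true)] ++ vk k ++ [(0, false)]

/-- the nonempty subsets of a finite set -/
def simplex (s : Finset ℕ) : Finset (Finset ℕ) := s.powerset.filter (fun t => t.Nonempty)

/-- four triangles with the common vertex `0`; the loop of the generator `g` runs through
`0, 2g+1, 2g+2, 0` -/
def graph : Finset (Finset ℕ) :=
  (Finset.range 4).biUnion (fun g =>
    simplex {0, 2 * g + 1} ∪ simplex {2 * g + 1, 2 * g + 2} ∪ simplex {2 * g + 2, 0})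

/-- the `i`-th vertex of the closed edge path of the word `w` in the graph (three edges for each
letter) -/
def wpath (w : Word) (i : ℕ) : ℕ :=
  if i % 3 = 0 then 0 else
    let l := w.getD (i / 3) (0, true)
    if decide (i % 3 = 1) = l.2 then 2 * (l.1 : ℕ) + 1 else 2 * (l.1 : ℕ) + 2

/-- the ring of the disc attached with labels starting at `N`: `r 0 = r n = 0`, `r i = N + i` -/
def ring (n N i : ℕ) : ℕ := if i = 0 ∨ i = n then 0 else N + i

/-- the new simplices of a disc attached along the closed edge path `p 0 = 0, p 1, …, p n = 0`: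
triangles `{r i, p i, p (i+1)}`, `{r i, p (i+1), r (i+1)}` (a strip between the path and an
embedded ring) and `{N, r i, r (i+1)}` (the cone over the ring) -/
def disc (n : ℕ) (p : ℕ → ℕ) (N : ℕ) : Finset (Finset ℕ) :=
  (Finset.range n).biUnion (fun i =>
    simplex {ring n N i, p i, p (i + 1)} ∪ simplex {ring n N i, p (i + 1), ring n N (i + 1)} ∪
      simplex {N, ring n N i, ring n N (i + 1)})

/-- attach a triangulated disc along the edge path of a word -/
def attach (K : Finset (Finset ℕ)) (w : Word) (N : ℕ) : Finset (Finset ℕ) :=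
  K ∪ disc (3 * w.length) (wpath w) N

/-- the triangulated presentation complex of `⟨t, x, y, w | R1, R2, R3⟩` -/
def Xcx : Finset (Finset ℕ) := attach (attach (attach graph R1 100) R2 200) R3 300

/-- the triangulated presentation complex of `⟨t, x, y, w | R1, R2, R3, v_k⟩` -/
def Kk (k : ℕ) : Finset (Finset ℕ) := attach Xcx (vk k) 1000

end Pool.Agent.Lib.MP_50ef00_gt
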