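import Mathlib
import Pool.Agent.Lib.MP_50ef00_gt.Defs
import Pool.Agent.Lib.MP_50ef00_gt.H65.Chain

/-!
# MP_50ef00_gt: interfaces of the negative side
(the complexes `Kk k` are pairwise not simple-homotopy equivalent)

* `TSet K` : the invariant (set of squared torsions)
* `NBStatement` : it is invariant under simple-homotopy equivalence
* `NCStatement` : its value at `Kk k` is the set `TSmall k` given by small matrices
* `NEStatement` : the sets `TSmall k`, `k ≥ 2`, are pairwise different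
-/

namespace Pool.Agent.Lib.MP_50ef00_gt

open H65 Matrix

/-! ### the group `P = C₅ * C₂` and its affine action -/

/-- the two factors -/
abbrev Gf (i : Bool) := Multiplicative (ZMod (cond i 5 2))

/-- `C₅ * C₂` -/
abbrev P := Monoid.CoprodI Gf

/-- the rotations about the point `c` -/
noncomputable def rotHom (n : ℕ) [NeZero n] (c : ℂ) : Multiplicative (ZMod n) →* Aff where
  toFun k := ⟨ZMod.toCircle (Multiplicative.toAdd k),
    (1 - (ZMod.toCircle (Multiplicative.toAdd k) : ℂ)) * c⟩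
  map_one' := by ext1 <;> simp
  map_mul' a b := by
    ext1
    · simp [AddChar.map_add_eq_mul]
    · simp [AddChar.map_add_eq_mul]; ring

/-- `t ↦ (z ↦ ζ z)`, `y ↦ (z ↦ 1 - z)` -/
noncomputable def affP : P →* Aff := Monoid.CoprodI.lift (fun i => match i with
  | true => rotHom 5 0
  | false => rotHom 2 (1 / 2))

/-- the sign of `C₂` -/
def sgn2 : Multiplicative (ZMod 2) →* ℤˣ where
  toFun k := if k = 1 then 1 else -1
  map_one' := by decide
  map_mul' := by decide

/-- the sign `ε : P → {1, -1}`, `t ↦ 1`, `y ↦ -1` -/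
def epsP : P →* ℤˣ := Monoid.CoprodI.lift (fun i => match i with
  | true => 1
  | false => sgn2)

/-- the group `ℤ ⋊ P` -/
@[ext] structure PZ where
  /-- the component in `P` -/
  p : P
  /-- the component in `ℤ` -/
  n : ℤ

namespace PZ

instance : Mul PZ := ⟨fun g h => ⟨g.p * h.p, g.n + epsP g.p * h.n⟩⟩
instance : One PZ := ⟨⟨1, 0⟩⟩
instance : Inv PZ := ⟨fun g => ⟨g.p⁻¹, -((epsP g.p)⁻¹ : ℤˣ) * g.n⟩⟩

@[simp] theorem mul_p (g h : PZ) : (g * h).p = g.p * h.p := rfl
@[simp] theorem mul_n (g h : PZ) : (g * h).n = g.n + epsP g.p * h.n := rfl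
@[simp] theorem one_p : (1 : PZ).p = 1 := rfl
@[simp] theorem one_n : (1 : PZ).n = 0 := rfl
@[simp] theorem inv_p (g : PZ) : (g⁻¹).p = g.p⁻¹ := rfl
@[simp] theorem inv_n (g : PZ) : (g⁻¹).n = -((epsP g.p)⁻¹ : ℤˣ) * g.n := rfl

instance : Group PZ := Group.ofLeftAxioms
  (by intro a b c; ext1 <;> simp [mul_assoc]; ring)
  (by intro a; ext1 <;> simp)
  (by intro a; ext1 <;> simp)

end PZ

/-- the sign as a complex number of modulus one -/
noncomputable def signC : ℤˣ →* Circle where
  toFun u := if u = 1 then 1 else -1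
  map_one' := by simp
  map_mul' a b := by
    rcases Int.units_eq_one_or a with rfl | rfl <;> rcases Int.units_eq_one_or b with rfl | rfl <;>
      simp

theorem coe_signC (u : ℤˣ) : ((signC u : Circle) : ℂ) = ((u : ℤ) : ℂ) := by
  rcases Int.units_eq_one_or u with rfl | rfl <;> simp [signC]

/-- the pair of affine maps attached to an element of `ℤ ⋊ P` -/
noncomputable def toG2 : PZ →* G2 where
  toFun g := (⟨signC (epsP g.p), (g.n : ℂ)⟩, affP g.p)
  map_one' := by
    ext1
    · ext1 <;> simp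
    · simp
  map_mul' a b := by
    ext1
    · ext1
      · simp
      · simp [coe_signC]
    · simp

/-! ### the invariant -/

/-- `Hol K A u v g`: there is an edge path in `K` from `u` to `v` with holonomy `g` -/
inductive Hol {G : Type*} [Group G] (K : Finset (Finset ℕ)) (A : ℕ → ℕ → G) : ℕ → ℕ → G → Prop
  | refl (v : ℕ) (hv : {v} ∈ K) : Hol K A v v 1
  | step {u v w : ℕ} {g : G} (h : Hol K A u v g) (hvw : {v, w} ∈ K) : Hol K A u w (g * A v w)

/-- the holonomy of `A` maps onto `P` -/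
def Full (K : Finset (Finset ℕ)) (A : ℕ → ℕ → PZ) : Prop :=
  ∃ v : ℕ, {v} ∈ K ∧ ∀ p : P, ∃ g, Hol K A v v g ∧ g.p = p

/-- the invariant: the set of all squared torsions -/
def TSet (K : Finset (Finset ℕ)) : Set ℂ :=
  {r | ∃ A : ℕ → ℕ → PZ, IsCocycle K A ∧ Full K A ∧
    IsTorsOn (evenCells K) (oddCells K) (Dg (fun u v => toG2 (A u v))) r}

/-- invariance under simple-homotopy equivalence -/
def NBStatement : Prop := ∀ K L : Finset (Finset ℕ), SimpleEquiv K L → TSet K = TSet L

/-! ### the small complex -/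

/-- triples (holonomy, Fox vector, area) -/
@[ext] structure Trip where
  /-- holonomy -/
  A : G2
  /-- Fox vector -/
  F : Fin 4 → ℂ
  /-- twice the signed area -/
  Q : ℂ

namespace Trip

noncomputable instance : Mul Trip :=
  ⟨fun a b => ⟨a.A * b.A, fun g => a.F g + rho a.A * b.F g,
    a.Q + rho a.A * b.Q + cross (pos a.A) (pos (a.A * b.A))⟩⟩
noncomputable instance : One Trip := ⟨⟨1, 0, 0⟩⟩
noncomputable instance : Inv Trip :=
  ⟨fun a => ⟨a.A⁻¹, fun g => -(rho a.A)⁻¹ * a.F g, -(rho a.A)⁻¹ * a.Q⟩⟩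

@[simp] theorem mul_A (a b : Trip) : (a * b).A = a.A * b.A := rfl
@[simp] theorem mul_F (a b : Trip) (g : Fin 4) : (a * b).F g = a.F g + rho a.A * b.F g := rfl
@[simp] theorem mul_Q (a b : Trip) :
    (a * b).Q = a.Q + rho a.A * b.Q + cross (pos a.A) (pos (a.A * b.A)) := rfl
@[simp] theorem one_A : (1 : Trip).A = 1 := rfl
@[simp] theorem one_F (g : Fin 4) : (1 : Trip).F g = 0 := rfl
@[simp] theorem one_Q : (1 : Trip).Q = 0 := rfl
@[simp] theorem inv_A (a : Trip) : (a⁻¹).A = a.A⁻¹ := rfl
@[simp] theorem inv_F (a : Trip) (g : Fin 4) : (a⁻¹).F g = -(rho a.A)⁻¹ * a.F g := rfl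
@[simp] theorem inv_Q (a : Trip) : (a⁻¹).Q = -(rho a.A)⁻¹ * a.Q := rfl

theorem rho_inv (g : G2) : rho g⁻¹ = (rho g)⁻¹ := by
  have := rho_mul g⁻¹ g
  rw [inv_mul_cancel, rho_one] at this
  exact eq_inv_of_mul_eq_one_left this.symm

noncomputable instance : Group Trip := Group.ofLeftAxioms
  (by
    intro a b c
    ext1
    · simp [mul_assoc]
    · funext g; simp [rho_mul]; ring
    · simp only [mul_Q, mul_A, mul_assoc]
      have h := cross_move a.A b.A (b.A * c.A)
      rw [rho_mul, mul_add, mul_add, ← h, cross_swap (pos a.A) (pos (a.A * (b.A * c.A)))]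
      ring)
  (by
    intro a
    ext1
    · simp
    · funext g; simp
    · simp)
  (by
    intro a
    ext1
    · simp
    · funext g
      simp only [mul_F, inv_F, inv_A, one_F, rho_inv]
      ring
    · simp only [mul_Q, inv_Q, inv_A, one_Q, rho_inv, inv_mul_cancel, pos_one, cross_zero_right]
      ring)

/-- the triple of a generator -/
noncomputable def gen (γ : Fin 4 → G2) (g : Fin 4) : Trip := ⟨γ g, Pi.single g 1, 0⟩

end Trip

/-- the triple of a word -/
noncomputable def tval (γ : Fin 4 → G2) (w : Word) : Trip := wval (Trip.gen γ) w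

/-- the relators of `Kk k` -/
def rels (k : ℕ) (i : Fin 4) : Word := ![R1, R2, R3, vk k] i

/-- small complex, odd → even: rows `v₀ (inl ())`, `z_i (inr i)`; columns `ℓ_g (inl g)`,
`e (inr ())` -/
noncomputable def small1 (γ : Fin 4 → G2) : Matrix (Unit ⊕ Fin 4) (Fin 4 ⊕ Unit) ℂ :=
  Matrix.of fun x y => match x, y with
    | Sum.inl _, Sum.inl g => rho (γ g) - 1
    | _, _ => 0

/-- small complex, even → odd -/
noncomputable def small0 (γ : Fin 4 → G2) (k : ℕ) : Matrix (Fin 4 ⊕ Unit) (Unit ⊕ Fin 4) ℂ :=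
  Matrix.of fun y x => match y, x with
    | Sum.inl g, Sum.inr i => (tval γ (rels k i)).F g
    | Sum.inr _, Sum.inr i => (tval γ (rels k i)).Q
    | _, _ => 0

/-- the value of the invariant at `Kk k` -/
def TSmall (k : ℕ) : Set ℂ :=
  {r | ∃ γ : Fin 4 → PZ, (∀ i, wval γ (rels k i) = 1) ∧
    Subgroup.closure (Set.range (fun g => (γ g).p)) = ⊤ ∧
    IsTors (small1 (fun g => toG2 (γ g))) (small0 (fun g => toG2 (γ g)) k) r}

/-- the reduction to the small complex -/
def NCStatement : Prop := ∀ k : ℕ, TSet (Kk k) = TSmall k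

/-- the sets `TSmall k` are different -/
def NEStatement : Prop := ∀ k l : ℕ, 2 ≤ k → 2 ≤ l → TSmall k = TSmall l → k = l

/-- the negative side -/
theorem neg_of (hB : NBStatement) (hC : NCStatement) (hE : NEStatement) :
    ∀ k l : ℕ, 2 ≤ k → 2 ≤ l → SimpleEquiv (Kk k) (Kk l) → k = l := by
  intro k l hk hl h
  apply hE k l hk hl
  rw [← hC k, ← hC l]
  exact hB _ _ h

end Pool.Agent.Lib.MP_50ef00_gt
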