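import Mathlib
import Pool.Agent.Lib.MP_50ef00_gt.Neg

/-!
# MP_50ef00_gt: sub-modules of the negative side

`CollapseStatement`, `RelabelStatement` (invariance), `NC0 … NC4` (reduction of `Kk k`).
-/

namespace Pool.Agent.Lib.MP_50ef00_gt

open H65 Matrix

/-- index type of the cells -/
abbrev Cell := Option (Finset ℕ)

/-! ### invariance (NB) -/

/-- NB1 -/
def CollapseStatement : Prop := ∀ K L : Finset (Finset ℕ), IsComplex K → IsComplex L →
  Collapse K L → TSet K = TSet L

/-- NB2 -/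
def RelabelStatement : Prop := ∀ K L : Finset (Finset ℕ), IsComplex K → IsComplex L →
  Relabel K L → TSet K = TSet L

theorem nb_of (h1 : CollapseStatement) (h2 : RelabelStatement) : NBStatement := by
  intro K L h
  induction h with
  | rel K L h => exact h.2.2.elim (h1 K L h.1 h.2.1) (h2 K L h.1 h.2.1)
  | refl K => rfl
  | symm K L _ ih => exact ih.symm
  | trans K L M _ _ ih1 ih2 => exact ih1.trans ih2

/-! ### chains -/

/-- the chain of the oriented edge `u → v`, developed with holonomy `h` at `u`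
(with its area part in the component `none`) -/
noncomputable def ed (A : ℕ → ℕ → G2) (h : G2) (u v : ℕ) : Cell → ℂ
  | none => cross (pos h) (pos (h * A u v))
  | some s => if s = {u, v} then (if u < v then rho h else -rho (h * A u v)) else 0

/-- holonomy along a path -/
def hol {G : Type*} [Group G] (A : ℕ → ℕ → G) (p : ℕ → ℕ) : ℕ → G
  | 0 => 1
  | i + 1 => hol A p i * A (p i) (p (i + 1))

/-- the chain of a path -/
noncomputable def pch (A : ℕ → ℕ → G2) (p : ℕ → ℕ) (n : ℕ) : Cell → ℂ :=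
  fun x => ∑ i ∈ Finset.range n, ed A (hol A p i) (p i) (p (i + 1)) x

/-- orientation sign of an ordered triple -/
def osg (u v w : ℕ) : ℂ :=
  if (u < v ∧ v < w) ∨ (v < w ∧ w < u) ∨ (w < u ∧ u < v) then 1 else -1

/-- the coefficient of the oriented triangle `(u, v, w)`, developed with holonomy `h` at `u` -/
noncomputable def trc (A : ℕ → ℕ → G2) (h : G2) (u v w : ℕ) : ℂ :=
  osg u v w * rho (h * A u (mn {u, v, w}))

/-- NC1a: boundary of an oriented triangle -/
def NC1aStatement : Prop := ∀ (K : Finset (Finset ℕ)) (A : ℕ → ℕ → G2) (h : G2) (u v w : ℕ),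
  IsComplex K → IsCocycle K A → ({u, v, w} : Finset ℕ) ∈ K → u ≠ v → v ≠ w → u ≠ w →
  ∀ x : Cell, Dg A x (some {u, v, w}) * trc A h u v w
    = ed A h u v x + ed A (h * A u v) v w x + ed A (h * A u w) w u x

/-! ### discs -/

/-- a closed edge path in `L` along which a disc with labels `≥ N` is attached -/
structure GoodPath (L : Finset (Finset ℕ)) (n N : ℕ) (p : ℕ → ℕ) : Prop where
  cx : IsComplex L
  lt : ∀ s ∈ L, ∀ v ∈ s, v < N
  n3 : 3 ≤ n
  p0 : p 0 = 0
  pn : p n = 0
  edge : ∀ i < n, ({p i, p (i + 1)} : Finset ℕ) ∈ L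
  ne : ∀ i < n, p i ≠ p (i + 1)
  h1 : p 1 ≠ 0
  h2 : p 2 ≠ 0
  hl : p (n - 1) ≠ 0

/-- the last triangle of the disc -/
def tau (n N : ℕ) : Finset ℕ := {N, N + (n - 1), 0}

/-- a collapse between complexes -/
def CollapseStep (K L : Finset (Finset ℕ)) : Prop := IsComplex K ∧ IsComplex L ∧ Collapse K L

/-- NC0: the disc without its last triangle collapses -/
def NC0Statement : Prop := ∀ (L : Finset (Finset ℕ)) (n N : ℕ) (p : ℕ → ℕ), GoodPath L n N p →
  IsComplex (L ∪ disc n p N) ∧ tau n N ∈ L ∪ disc n p N ∧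
  Relation.ReflTransGen CollapseStep ((L ∪ disc n p N).erase (tau n N)) L

/-- replace a column of a matrix -/
def updCol (D : Cell → Cell → ℂ) (j : Cell) (c : Cell → ℂ) : Cell → Cell → ℂ :=
  fun x y => if y = j then c x else D x y

/-- `D` is the boundary matrix `Dg A` on the cells of `K`, and `V` is a finite set of additional
even cells whose boundaries are cycles supported on the odd cells of `L ⊆ K` -/
structure VCells (K L : Finset (Finset ℕ)) (A : ℕ → ℕ → G2) (V : Finset Cell)
    (D : Cell → Cell → ℂ) : Prop where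
  sub : L ⊆ K
  notMem : ∀ v ∈ V, v ≠ none ∧ ∀ s ∈ K, v ≠ some s
  row : ∀ v ∈ V, ∀ y ∈ oddCells K, D v y = 0
  col : ∀ s ∈ K, ∀ x, D x (some s) = Dg A x (some s)
  colnone : ∀ x, D x none = 0
  supp : ∀ v ∈ V, ∀ x, x ∉ oddCells L → D x v = 0
  cyc : ∀ v ∈ V, ∀ x, ∑ y ∈ oddCells L, D x y * D y v = 0

/-- NC1: reduction of one disc (`G ⊆ L` is a subcomplex containing the path and supporting the
boundaries of the additional cells; in the application `G = graph`) -/
def NC1Statement : Prop := ∀ (G L : Finset (Finset ℕ)) (n N : ℕ) (p : ℕ → ℕ) (A : ℕ → ℕ → G2)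
  (V : Finset Cell) (D : Cell → Cell → ℂ) (r : ℂ),
  IsComplex G → G ⊆ L → (∀ i < n, ({p i, p (i + 1)} : Finset ℕ) ∈ G) →
  GoodPath L n N p → IsCocycle (L ∪ disc n p N) A → VCells (L ∪ disc n p N) G A V D →
  (IsTorsOn (V ∪ evenCells (L ∪ disc n p N)) (oddCells (L ∪ disc n p N)) D r ↔
    IsTorsOn (insert (some (tau n N)) V ∪ evenCells L) (oddCells L)
      (updCol D (some (tau n N)) (pch A p n)) r) ∧
  VCells L G A (insert (some (tau n N)) V) (updCol D (some (tau n N)) (pch A p n))

/-! ### the graph -/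

/-- letter holonomy -/
def lhol {G : Type*} [Group G] (A : ℕ → ℕ → G) (g : Fin 4) : G :=
  A 0 (2 * g + 1) * A (2 * g + 1) (2 * g + 2) * A (2 * g + 2) 0

/-- the chain of the loop of a generator -/
noncomputable def loopc (A : ℕ → ℕ → G2) (g : Fin 4) : Cell → ℂ := fun x =>
  ed A 1 0 (2 * g + 1) x + ed A (A 0 (2 * g + 1)) (2 * g + 1) (2 * g + 2) x
    + ed A (A 0 (2 * g + 1) * A (2 * g + 1) (2 * g + 2)) (2 * g + 2) 0 x

/-- small complex with arbitrary Fox vectors and areas -/
noncomputable def smallF (F : Fin 4 → Fin 4 → ℂ) (Q : Fin 4 → ℂ) :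
    Matrix (Fin 4 ⊕ Unit) (Unit ⊕ Fin 4) ℂ :=
  Matrix.of fun y x => match y, x with
    | Sum.inl g, Sum.inr i => F i g
    | Sum.inr _, Sum.inr i => Q i
    | _, _ => 0

/-- NC2: reduction of the graph, with four additional even cells `z i` -/
def NC2Statement : Prop := ∀ (A : ℕ → ℕ → G2) (z : Fin 4 → Cell) (D : Cell → Cell → ℂ)
  (F : Fin 4 → Fin 4 → ℂ) (Q : Fin 4 → ℂ) (r : ℂ),
  IsCocycle graph A → Function.Injective z →
  VCells graph graph A (Finset.univ.image z) D →
  (∀ i x, D x (z i) = ∑ g, F i g * loopc A g x + Q i * (if x = none then 1 else 0)) →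
  (IsTorsOn (Finset.univ.image z ∪ evenCells graph) (oddCells graph) D r ↔
    IsTors (small1 (lhol A)) (smallF F Q) r)

/-- NC3: the chain of the path of a word -/
def NC3Statement : Prop := ∀ (A : ℕ → ℕ → G2) (w : Word), IsCocycle graph A →
  hol A (wpath w) (3 * w.length) = wval (lhol A) w ∧
  ∀ x : Cell, pch A (wpath w) (3 * w.length) x
    = ∑ g, (tval (lhol A) w).F g * loopc A g x
      + (tval (lhol A) w).Q * (if x = none then 1 else 0)

/-- holonomy of words (any group; no chains) -/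
def NC3hStatement : Prop := ∀ {G : Type} [Group G] (A : ℕ → ℕ → G) (w : Word),
  IsCocycle graph A → hol A (wpath w) (3 * w.length) = wval (lhol A) w

/-- NC4a: the holonomy along the boundary path of a disc is trivial -/
def NC4aStatement : Prop := ∀ {G : Type} [Group G] (L : Finset (Finset ℕ)) (n N : ℕ) (p : ℕ → ℕ)
  (A : ℕ → ℕ → G), GoodPath L n N p → IsCocycle (L ∪ disc n p N) A → hol A p n = 1

/-- NC4b: extension of a cocycle over a disc -/
def NC4bStatement : Prop := ∀ {G : Type} [Group G] (L : Finset (Finset ℕ)) (n N : ℕ) (p : ℕ → ℕ)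
  (A : ℕ → ℕ → G), GoodPath L n N p → IsCocycle L A → hol A p n = 1 →
  ∃ A' : ℕ → ℕ → G, IsCocycle (L ∪ disc n p N) A' ∧ ∀ u v, u < N → v < N → A' u v = A u v

/-- NC4c: the holonomy group does not change when a disc is attached -/
def NC4cStatement : Prop := ∀ {G : Type} [Group G] (L : Finset (Finset ℕ)) (n N : ℕ) (p : ℕ → ℕ)
  (A : ℕ → ℕ → G), GoodPath L n N p → IsCocycle (L ∪ disc n p N) A →
  ∀ g : G, Hol (L ∪ disc n p N) A 0 0 g ↔ Hol L A 0 0 g

/-- NC4d: holonomy in the graph -/
def NC4dStatement : Prop := ∀ {G : Type} [Group G] (A : ℕ → ℕ → G), IsCocycle graph A →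
  ∀ g : G, Hol graph A 0 0 g ↔ g ∈ Subgroup.closure (Set.range (lhol A))

/-- NC4e: existence of a cocycle on the graph with given letter holonomies -/
def NC4eStatement : Prop := ∀ {G : Type} [Group G] (γ : Fin 4 → G),
  ∃ A : ℕ → ℕ → G, IsCocycle graph A ∧ ∀ g, lhol A g = γ g

/-- NC4f: base point change: `Full` can be tested at the vertex `0` of a connected complex -/
def NC4fStatement : Prop := ∀ (k : ℕ) (A : ℕ → ℕ → PZ), IsCocycle (Kk k) A →
  (Full (Kk k) A ↔ ∀ p : P, ∃ g, Hol (Kk k) A 0 0 g ∧ g.p = p)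

/-- NC5: the paths of the words are good -/
def NC5Statement : Prop := ∀ (L : Finset (Finset ℕ)) (w : Word) (N : ℕ), IsComplex L →
  graph ⊆ L → w ≠ [] → (∀ s ∈ L, ∀ v ∈ s, v < N) → GoodPath L (3 * w.length) N (wpath w)

end Pool.Agent.Lib.MP_50ef00_gt
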