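import Mathlib
import Pool.Agent.Lib.MP_50ef00_gt.NegC
import Pool.Agent.Lib.MP_50ef00_gt.H96.Words

/-!
# MP_50ef00_gt: interfaces of the positive side
(the geometric realizations of the `Kk k`, `2 ^ k = 1 mod 7775`, are homotopy equivalent)

* P1 `CollapseHEStatement`, `RelabelHEStatement`
* P2 `CellStatement` : attaching a triangle is attaching a two-cell (strict universal property)
* P3 `FillStatement` : fillings and relative second homotopy classes
* P4 `AlgStatement` : free crossed modules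
* P5 `TopCocycleStatement` : classes of edge paths form a cocycle
* P7 `StripHolStatement` : holonomy in a disc without its last triangle
* P8 `UnionLeftStatement`, `UnionRightStatement` : the two discs
-/

namespace Pool.Agent.Lib.MP_50ef00_gt

open scoped unitInterval
open H65

/-! ### realizations -/

/-- the geometric realization, with the topology of `ℕ → ℝ` -/
def Rz (K : Finset (Finset ℕ)) : Set (ℕ → ℝ) :=
  {x | (∀ i, 0 ≤ x i) ∧ ∃ s ∈ K, (∀ i, i ∉ s → x i = 0) ∧ ∑ i ∈ s, x i = 1}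

/-- the realizations are homotopy equivalent -/
def HE (K L : Finset (Finset ℕ)) : Prop := Nonempty (ContinuousMap.HomotopyEquiv (Rz K) (Rz L))

/-- the vertex `v` of the realization -/
noncomputable def vtx (K : Finset (Finset ℕ)) (v : ℕ) (h : {v} ∈ K) : Rz K :=
  ⟨Pi.single v 1, by
    refine ⟨fun i => ?_, {v}, h, fun i hi => ?_, ?_⟩
    · by_cases hi : i = v
      · subst hi; simp
      · simp [hi]
    · simp only [Finset.mem_singleton] at hi
      simp [hi]
    · simp⟩

/-- the straight edge from `u` to `v` -/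
noncomputable def seg (K : Finset (Finset ℕ)) (u v : ℕ) (hu : {u} ∈ K) (hv : {v} ∈ K)
    (h : ({u, v} : Finset ℕ) ∈ K) : Path (vtx K u hu) (vtx K v hv) where
  toFun r := ⟨fun i => (1 - (r : ℝ)) * (Pi.single u 1 : ℕ → ℝ) i
      + (r : ℝ) * (Pi.single v 1 : ℕ → ℝ) i, by
    have hr0 := r.2.1
    have hr1 := r.2.2
    refine ⟨fun i => ?_, {u, v}, h, fun i hi => ?_, ?_⟩
    · have h1 : (0 : ℝ) ≤ (Pi.single u 1 : ℕ → ℝ) i := by
        rw [Pi.single_apply]; split_ifs <;> norm_num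
      have h2 : (0 : ℝ) ≤ (Pi.single v 1 : ℕ → ℝ) i := by
        rw [Pi.single_apply]; split_ifs <;> norm_num
      have h3 : (0 : ℝ) ≤ 1 - r := by linarith
      positivity
    · simp only [Finset.mem_insert, Finset.mem_singleton, not_or] at hi
      simp [hi.1, hi.2]
    · rw [Finset.sum_add_distrib, ← Finset.mul_sum, ← Finset.mul_sum]
      have h1 : ∑ i ∈ ({u, v} : Finset ℕ), (Pi.single u 1 : ℕ → ℝ) i = 1 := by
        simp [Pi.single_apply]
      have h2 : ∑ i ∈ ({u, v} : Finset ℕ), (Pi.single v 1 : ℕ → ℝ) i = 1 := by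
        simp [Pi.single_apply]
      rw [h1, h2]; ring⟩
  continuous_toFun := by
    apply Continuous.subtype_mk
    apply continuous_pi
    intro i
    fun_prop
  source' := by
    apply Subtype.ext; funext i; simp [vtx]
  target' := by
    apply Subtype.ext; funext i; simp [vtx]

/-- the inclusion of realizations -/
def incl {K L : Finset (Finset ℕ)} (h : K ⊆ L) : C(Rz K, Rz L) where
  toFun x := ⟨x.1, x.2.1, x.2.2.choose, h x.2.2.choose_spec.1, x.2.2.choose_spec.2⟩
  continuous_toFun := by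
    apply Continuous.subtype_mk
    exact continuous_subtype_val

/-! ### P1 -/

/-- P1a -/
def CollapseHEStatement : Prop := ∀ K L : Finset (Finset ℕ), IsComplex K → IsComplex L →
  Collapse K L → HE K L

/-- P1b -/
def RelabelHEStatement : Prop := ∀ K L : Finset (Finset ℕ), IsComplex K → Relabel K L → HE K L

/-! ### fillings -/

/-- the space of loops -/
abbrev Om {X : Type} [TopologicalSpace X] (x : X) := Path x x

/-- the loop `f ∘ γ` -/
abbrev lp {A X : Type} [TopologicalSpace A] [TopologicalSpace X] {x₀ : A} (γ : Path x₀ x₀)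
    (f : C(A, X)) : Om (f x₀) := γ.map f.continuous

/-- a filling of `f ∘ γ`: a based null-homotopy, as a path in the space of based loops -/
abbrev Fill {A X : Type} [TopologicalSpace A] [TopologicalSpace X] {x₀ : A} (γ : Path x₀ x₀)
    (f : C(A, X)) := Path (lp γ f) (Path.refl (f x₀) : Om (f x₀))

/-- `X` is obtained from `A` by attaching a two-cell along `γ`, with tautological filling `H`:
strict universal property, for maps and for homotopies -/
structure IsCell {A X : Type} [TopologicalSpace A] [TopologicalSpace X] (i : C(A, X)) {x₀ : A}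
    (γ : Path x₀ x₀) (H : Fill γ i) : Prop where
  ext : ∀ {Y : Type} [TopologicalSpace Y] (f : C(A, Y)) (G : Fill γ f),
    ∃ g : C(X, Y), (∀ a, g (i a) = f a) ∧ ∀ r α, g (H r α) = G r α
  uniq : ∀ {Y : Type} [TopologicalSpace Y] (f : C(A, Y)) (g g' : C(X, Y)) (G G' : Fill γ f),
    (∀ a, g (i a) = f a) → (∀ a, g' (i a) = f a) → (∀ r α, g (H r α) = G r α) →
    (∀ r α, g' (H r α) = G' r α) → G.Homotopic G' → g.Homotopic g'

/-- P2: attaching a triangle `{0, b, c}` -/
def CellStatement : Prop := ∀ (Z : Finset (Finset ℕ)) (b c : ℕ) (h0 : {0} ∈ Z) (hb : {b} ∈ Z)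
  (hc : {c} ∈ Z) (h0b : ({0, b} : Finset ℕ) ∈ Z) (hbc : ({b, c} : Finset ℕ) ∈ Z)
  (hc0 : ({c, 0} : Finset ℕ) ∈ Z), IsComplex Z → b ≠ 0 → c ≠ 0 → b ≠ c →
  ({0, b, c} : Finset ℕ) ∉ Z →
  ∃ (γ : Path (vtx Z 0 h0) (vtx Z 0 h0))
    (H : Fill γ (incl (Finset.subset_insert ({0, b, c} : Finset ℕ) Z))),
    γ.Homotopic (((seg Z 0 b h0 hb h0b).trans (seg Z b c hb hc hbc)).trans
      (seg Z c 0 hc h0 hc0)) ∧
    IsCell (incl (Finset.subset_insert ({0, b, c} : Finset ℕ) Z)) γ H

/-! ### P4: algebra -/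

/-- cat¹-groups over `P` -/
structure Cat1 (P E : Type) [Group P] [Group E] where
  /-- target -/
  d0 : E →* P
  /-- source -/
  d1 : E →* P
  /-- identities -/
  s : P →* E
  d0s : ∀ p, d0 (s p) = p
  d1s : ∀ p, d1 (s p) = p
  comm : ∀ x y : E, d1 x = 1 → d0 y = 1 → x * y = y * x

/-- morphisms over `P` -/
structure Cat1.IsMor {P E E' : Type} [Group P] [Group E] [Group E'] (C : Cat1 P E)
    (C' : Cat1 P E') (φ : E →* E') : Prop where
  d0 : ∀ x, C'.d0 (φ x) = C.d0 x
  d1 : ∀ x, C'.d1 (φ x) = C.d1 x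
  s : ∀ p, φ (C.s p) = C'.s p

/-- P4 -/
def AlgStatement : Prop := ∀ (P E E' : Type) [Group P] [Group E] [Group E'] (C : Cat1 P E)
  (C' : Cat1 P E') (t w : P) (m k : ℕ) (x : E) (x' : E'), Odd m → t ^ m = 1 →
  (2 : ZMod m) ^ k = 1 → C.d1 x = 1 → C.d0 x = H96.vk t w 0 → C'.d1 x' = 1 →
  C'.d0 x' = H96.vk t w k →
  ∃ (a : E) (b : E'), C.d1 a = 1 ∧ C.d0 a = H96.vk t w k ∧ C'.d1 b = 1 ∧
    C'.d0 b = H96.vk t w 0 ∧
    (∀ φ : E' →* E, C'.IsMor C φ → φ x' = a → φ b = x) ∧
    (∀ ψ : E →* E', C.IsMor C' ψ → ψ x = b → ψ a = x')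

/-! ### P5: the fundamental group and edge paths -/

/-- the fundamental group, with the multiplication `[γ] [γ'] = [γ.trans γ']` -/
abbrev Pi1 (X : Type) [TopologicalSpace X] (x : X) := (FundamentalGroup X x)ᵐᵒᵖ

/-- the class of a loop -/
def cls {X : Type} [TopologicalSpace X] {x : X} (γ : Path x x) : Pi1 X x :=
  MulOpposite.op (FundamentalGroup.fromPath (Path.Homotopic.Quotient.mk γ))

/-- P5: the classes of edge paths form a cocycle -/
def TopCocycleStatement : Prop := ∀ (K : Finset (Finset ℕ)) (h0 : {0} ∈ K), IsComplex K →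
  ∃ A : ℕ → ℕ → Pi1 (Rz K) (vtx K 0 h0), IsCocycle K A ∧
    ∀ (b c : ℕ) (hb : {b} ∈ K) (hc : {c} ∈ K) (h0b : ({0, b} : Finset ℕ) ∈ K)
      (hbc : ({b, c} : Finset ℕ) ∈ K) (hc0 : ({c, 0} : Finset ℕ) ∈ K),
      A 0 b * A b c * A c 0 = cls (((seg K 0 b h0 hb h0b).trans (seg K b c hb hc hbc)).trans
        (seg K c 0 hc h0 hc0))

/-! ### P3: two-cells attached along `v_0` and `v_k` -/

/-- P3: if two cells are attached to `A` along loops with classes `v_0` and `v_k`, and
`t ^ m = 1`, then the results are homotopy equivalent -/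
def TwoCellStatement : Prop := ∀ (A X X' : Type) [TopologicalSpace A] [TopologicalSpace X]
  [TopologicalSpace X'] (i : C(A, X)) (i' : C(A, X')) (x₀ : A) (γ γ' : Path x₀ x₀)
  (H : Fill γ i) (H' : Fill γ' i') (t w : Pi1 A x₀) (m k : ℕ), IsCell i γ H → IsCell i' γ' H' →
  Odd m → t ^ m = 1 → (2 : ZMod m) ^ k = 1 → cls γ = H96.vk t w 0 → cls γ' = H96.vk t w k →
  Nonempty (ContinuousMap.HomotopyEquiv X X')

/-! ### P7, P8: combinatorics of the discs -/

/-- P7: holonomy in a disc without its last triangle -/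
def StripHolStatement : Prop := ∀ {G : Type} [Group G] (L : Finset (Finset ℕ)) (n N : ℕ)
  (p : ℕ → ℕ) (A : ℕ → ℕ → G), GoodPath L n N p → IsCocycle ((L ∪ disc n p N).erase (tau n N)) A →
  hol A p n = A 0 N * A N (N + (n - 1)) * A (N + (n - 1)) 0

/-- number of edges of the path of `v_k` -/
def nk (k : ℕ) : ℕ := 3 * (vk k).length

/-- first label of the second disc -/
def N2 (k : ℕ) : ℕ := 1000 + nk k + 1

/-- `Xcx` with two discs, along `v_k` (labels from `1000`) and `v_0` (labels from `N2 k`) -/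
def Both (k : ℕ) : Finset (Finset ℕ) :=
  Xcx ∪ disc (nk k) (wpath (vk k)) 1000 ∪ disc (nk 0) (wpath (vk 0)) (N2 k)

/-- both discs without their last triangles -/
def Zk (k : ℕ) : Finset (Finset ℕ) := ((Both k).erase (tau (nk k) 1000)).erase (tau (nk 0) (N2 k))

/-- P8a -/
def UnionStatement : Prop := ∀ k : ℕ, IsComplex (Both k) ∧ IsComplex (Zk k) ∧
  tau (nk k) 1000 ∈ Both k ∧ tau (nk 0) (N2 k) ∈ Both k ∧ tau (nk k) 1000 ≠ tau (nk 0) (N2 k) ∧
  (∀ s, s ⊆ tau (nk k) 1000 → s.Nonempty → s ≠ tau (nk k) 1000 → s ∈ Zk k) ∧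
  (∀ s, s ⊆ tau (nk 0) (N2 k) → s.Nonempty → s ≠ tau (nk 0) (N2 k) → s ∈ Zk k)

/-- P8b: with the last triangle of the `v_k`-disc: equivalent to `Kk k` -/
def UnionLeftStatement : Prop := ∀ k : ℕ, HE (insert (tau (nk k) 1000) (Zk k)) (Kk k)

/-- P8c: with the last triangle of the `v_0`-disc: equivalent to `Kk 0` -/
def UnionRightStatement : Prop := ∀ k : ℕ, HE (insert (tau (nk 0) (N2 k)) (Zk k)) (Kk 0)

/-- P9: relators and loops in `Zk k`: for every cocycle `A` on `Zk k`, with letter holonomies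
`t, x, y, w`: `t ^ 7775 = 1` and the boundaries of the missing triangles are `v_k` and `v_0` -/
def LoopStatement : Prop := ∀ {G : Type} [Group G] (k : ℕ) (A : ℕ → ℕ → G), IsCocycle (Zk k) A →
  lhol A 0 ^ 7775 = 1 ∧
  A 0 1000 * A 1000 (1000 + (nk k - 1)) * A (1000 + (nk k - 1)) 0
    = H96.vk (lhol A 0) (lhol A 3) k ∧
  A 0 (N2 k) * A (N2 k) (N2 k + (nk 0 - 1)) * A (N2 k + (nk 0 - 1)) 0
    = H96.vk (lhol A 0) (lhol A 3) 0

/-- the positive side -/
def PosStatement : Prop := ∀ k : ℕ, (2 : ZMod 7775) ^ k = 1 → HE (Kk k) (Kk 0)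

end Pool.Agent.Lib.MP_50ef00_gt
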